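import Pool.Graph.R_seed8.Results.MP_4d0de2_an.FoldedOsgoodSurface

/-!
# A surface with continuous tangent planes and a set of positive area on which every continuous map
# from a planar open set into the surface is irregular

We construct a closed subset `S` of `ℝ³` homeomorphic to the plane (the closed embedding
`param f g h` of the plane is given), with a *continuous* unit normal `n`, such that for every point
`p` of `S` the plane through `p` orthogonal to `n p` is the geometric tangent plane to `S` at `p`,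
and a compact subset `E` of `S` of positive two-dimensional Hausdorff measure with the following
property. For *every* continuous map from an open subset of the plane into `S`, injective or not,
onto or not, almost no point of `E` is the image of a parameter at which the partial derivatives of
the three coordinate functions exist and the three Jacobians are not all zero.

So the answer to the question is no, in a stronger form: for every representation of `S` the image of
the exceptional set `N` has at least the measure of `E`, a positive number which does not depend on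
the representation, and the reason is not a lack of continuity of the tangent planes.

The library (module `Pool.Graph.R_seed8.Results.MP_4d0de2_an.FoldedOsgoodSurface`) has the plain
negative answer: a surface with tangent planes such that for every representation the image of `N`
has positive measure. The surface is the same: the double `|z| = h (x, y)` of a closed planar region
bounded by a curve of positive area which contains the product `K` of two Cantor sets, `h` smooth
with the support in the interior of the region; `E` is `K × {0}`. The main lemma `null_main` and the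
construction of the region are taken from there. New are the continuity of the tangent planes, the
closed embedding, and the set `E` with its property for all continuous maps.
-/

open Set Metric MeasureTheory Filter Topology

set_option linter.style.longLine false

namespace Pool.Agent.Results.MP_4d0de2_an.IrregularSet

/-- The map `(u, v) ↦ (f, g, h)(u, v)` into Euclidean 3-space. -/
noncomputable def param (f g h : ℝ × ℝ → ℝ) (w : ℝ × ℝ) : EuclideanSpace ℝ (Fin 3) :=
  !₂[f w, g w, h w]

/-- `(D, f, g, h)` is a representation of `S`: `D` is a planar domain (a nonempty connected open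
set), `f, g, h` are continuous on `D`, the map `(f, g, h)` is injective on `D`, and its image
is exactly `S`. -/
structure IsRepresentation (D : Set (ℝ × ℝ)) (f g h : ℝ × ℝ → ℝ)
    (S : Set (EuclideanSpace ℝ (Fin 3))) : Prop where
  isOpen : IsOpen D
  isConnected : IsConnected D
  continuousOn_f : ContinuousOn f D
  continuousOn_g : ContinuousOn g D
  continuousOn_h : ContinuousOn h D
  injOn : Set.InjOn (param f g h) D
  image_eq : param f g h '' D = S

/-- The plane `p + V`, with `V` a two-dimensional linear subspace, is a geometric tangent plane to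
`S` at `p`: for every `ε > 0` there is a ball around `p` such that for every point `q ≠ p` of `S` in
this ball the line through `p` and `q` makes an angle less than `ε` with the plane, that is, an
angle less than `ε` with some line of the plane. -/
def IsTangentPlane (S : Set (EuclideanSpace ℝ (Fin 3))) (p : EuclideanSpace ℝ (Fin 3))
    (V : Submodule ℝ (EuclideanSpace ℝ (Fin 3))) : Prop :=
  Module.finrank ℝ V = 2 ∧ ∀ ε > 0, ∃ δ > 0, ∀ q ∈ S, q ≠ p → dist q p < δ →
    ∃ v ∈ V, v ≠ 0 ∧ InnerProductGeometry.angle (q - p) v < ε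

/-- All first-order partial derivatives of `f, g, h` exist at `w`, and the three Jacobians
`∂(g,h)/∂(u,v)`, `∂(h,f)/∂(u,v)`, `∂(f,g)/∂(u,v)` are not all zero at `w`. -/
def RegularAt (f g h : ℝ × ℝ → ℝ) (w : ℝ × ℝ) : Prop :=
  ∃ fu fv gu gv hu hv : ℝ,
    HasDerivAt (fun t => f (t, w.2)) fu w.1 ∧ HasDerivAt (fun t => f (w.1, t)) fv w.2 ∧
    HasDerivAt (fun t => g (t, w.2)) gu w.1 ∧ HasDerivAt (fun t => g (w.1, t)) gv w.2 ∧
    HasDerivAt (fun t => h (t, w.2)) hu w.1 ∧ HasDerivAt (fun t => h (w.1, t)) hv w.2 ∧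
    ¬ (gu * hv - gv * hu = 0 ∧ hu * fv - hv * fu = 0 ∧ fu * gv - fv * gu = 0)

open Pool.Agent.Results.MP_4d0de2_an.FoldedOsgoodSurface (graphMap graphMap_apply
  graphMap_injective finrank_graph norm_le_euclid tangent_aux angle_lt exists_phi exists_homeo code
  code_continuous code_injective null_main deriv_zero_of_fold)

/-- the slope of the surface at a point -/
noncomputable def slope (h : ℝ × ℝ → ℝ) (p : EuclideanSpace ℝ (Fin 3)) : ℝ × ℝ →L[ℝ] ℝ :=
  Real.sign (p 2) • fderiv ℝ h (p 0, p 1)

lemma tangent_double (S : Set (EuclideanSpace ℝ (Fin 3))) (h : ℝ × ℝ → ℝ)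
    (hh : Differentiable ℝ h) (hnn : ∀ v, 0 ≤ h v)
    (hS : ∀ q ∈ S, |q 2| = h (q 0, q 1)) (p : EuclideanSpace ℝ (Fin 3)) (hp : p ∈ S) :
    IsTangentPlane S p (LinearMap.range (graphMap (slope h p))) := by
  have hpS := hS p hp
  have hcoord : ∀ q : EuclideanSpace ℝ (Fin 3), |q 2 - p 2| ≤ ‖q - p‖ := by
    intro q
    have := PiLp.norm_apply_le (q - p) 2
    simpa using this
  have hcoord2 : ∀ q : EuclideanSpace ℝ (Fin 3), dist ((q 0, q 1) : ℝ × ℝ) (p 0, p 1) ≤ dist q p := by
    intro q
    rw [dist_eq_norm, dist_eq_norm]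
    have := norm_le_euclid (q - p)
    simpa using this
  rcases lt_trichotomy (p 2) 0 with hp2 | hp2 | hp2
  · have hsl : slope h p = -fderiv ℝ h (p 0, p 1) := by
      rw [slope, Real.sign_of_neg hp2]
      ext <;> simp
    rw [hsl]
    refine ⟨finrank_graph _, ?_⟩
    intro ε hε
    obtain ⟨η, hη, hangle⟩ := angle_lt (E := EuclideanSpace ℝ (Fin 3)) ε hε
    have hd := (hh (p 0, p 1)).hasFDerivAt.isLittleO.def hη
    obtain ⟨δ1, hδ1, hball⟩ := Metric.eventually_nhds_iff.mp hd
    refine ⟨min δ1 (-(p 2)), lt_min hδ1 (by linarith), ?_⟩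
    intro q hq hqp hdist
    have hd1 : dist q p < δ1 := lt_of_lt_of_le hdist (min_le_left _ _)
    have hd2 : dist q p < -(p 2) := lt_of_lt_of_le hdist (min_le_right _ _)
    have hq2 : q 2 < 0 := by
      have := hcoord q
      rw [← dist_eq_norm, abs_le] at this
      linarith [this.2]
    have hqS := hS q hq
    rw [abs_of_neg hq2] at hqS
    rw [abs_of_neg hp2] at hpS
    apply tangent_aux η ε hangle hη
    · intro heq
      apply hqp
      have h0 := congrArg Prod.fst heq
      have h1 := congrArg Prod.snd heq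
      simp only at h0 h1
      ext i
      fin_cases i
      · exact h0
      · exact h1
      · show q 2 = p 2
        rw [heq, ← hpS] at hqS; linarith
    · have hb := hball (lt_of_le_of_lt (hcoord2 q) hd1)
      rw [Real.norm_eq_abs] at hb
      refine le_trans (le_of_eq ?_) hb
      rw [← abs_neg]
      congr 1
      rw [← hqS, ← hpS]
      simp only [neg_apply]
      ring
  · have hsl : slope h p = 0 := by
      rw [slope, hp2, Real.sign_zero, zero_smul]
    rw [hsl]
    refine ⟨finrank_graph _, ?_⟩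
    intro ε hε
    obtain ⟨η, hη, hangle⟩ := angle_lt (E := EuclideanSpace ℝ (Fin 3)) ε hε
    have hd := (hh (p 0, p 1)).hasFDerivAt.isLittleO.def hη
    obtain ⟨δ1, hδ1, hball⟩ := Metric.eventually_nhds_iff.mp hd
    rw [hp2, abs_zero] at hpS
    have hmin : IsLocalMin h (p 0, p 1) := by
      apply Filter.Eventually.of_forall
      intro v
      rw [← hpS]; exact hnn v
    have hder : fderiv ℝ h (p 0, p 1) = 0 := hmin.fderiv_eq_zero
    refine ⟨δ1, hδ1, ?_⟩
    intro q hq hqp hdist
    have hqS := hS q hq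
    apply tangent_aux η ε hangle hη
    · intro heq
      apply hqp
      have h0 := congrArg Prod.fst heq
      have h1 := congrArg Prod.snd heq
      simp only at h0 h1
      ext i
      fin_cases i
      · exact h0
      · exact h1
      · show q 2 = p 2
        rw [heq, ← hpS, abs_eq_zero] at hqS; linarith
    · have hb := hball (lt_of_le_of_lt (hcoord2 q) hdist)
      rw [hder, Real.norm_eq_abs, ← hpS] at hb
      refine le_trans (le_of_eq ?_) hb
      rw [← hqS, hp2]
      simp
  · have hsl : slope h p = fderiv ℝ h (p 0, p 1) := by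
      rw [slope, Real.sign_of_pos hp2, one_smul]
    rw [hsl]
    refine ⟨finrank_graph _, ?_⟩
    intro ε hε
    obtain ⟨η, hη, hangle⟩ := angle_lt (E := EuclideanSpace ℝ (Fin 3)) ε hε
    have hd := (hh (p 0, p 1)).hasFDerivAt.isLittleO.def hη
    obtain ⟨δ1, hδ1, hball⟩ := Metric.eventually_nhds_iff.mp hd
    refine ⟨min δ1 (p 2), lt_min hδ1 (by linarith), ?_⟩
    intro q hq hqp hdist
    have hd1 : dist q p < δ1 := lt_of_lt_of_le hdist (min_le_left _ _)
    have hd2 : dist q p < p 2 := lt_of_lt_of_le hdist (min_le_right _ _)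
    have hq2 : 0 < q 2 := by
      have := hcoord q
      rw [← dist_eq_norm, abs_le] at this
      linarith [this.1]
    have hqS := hS q hq
    rw [abs_of_pos hq2] at hqS
    rw [abs_of_pos hp2] at hpS
    apply tangent_aux η ε hangle hη
    · intro heq
      apply hqp
      have h0 := congrArg Prod.fst heq
      have h1 := congrArg Prod.snd heq
      simp only at h0 h1
      ext i
      fin_cases i
      · exact h0
      · exact h1
      · show q 2 = p 2
        rw [heq, ← hpS] at hqS; linarith
    · have hb := hball (lt_of_le_of_lt (hcoord2 q) hd1)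
      rw [Real.norm_eq_abs] at hb
      refine le_trans (le_of_eq ?_) hb
      congr 1
      rw [← hqS, ← hpS]

/-- the normal vector, not normalised -/
noncomputable def nv (ℓ : ℝ × ℝ →L[ℝ] ℝ) : EuclideanSpace ℝ (Fin 3) := !₂[-ℓ (1, 0), -ℓ (0, 1), 1]

lemma nv_ne (ℓ : ℝ × ℝ →L[ℝ] ℝ) : nv ℓ ≠ 0 := by
  intro h
  have := congrArg (fun q : EuclideanSpace ℝ (Fin 3) => q 2) h
  simp [nv] at this

lemma perp_nv (ℓ : ℝ × ℝ →L[ℝ] ℝ) : (ℝ ∙ nv ℓ)ᗮ = LinearMap.range (graphMap ℓ) := by
  have hℓ : ∀ a b : ℝ, ℓ (a, b) = a * ℓ (1, 0) + b * ℓ (0, 1) := by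
    intro a b
    have : ((a, b) : ℝ × ℝ) = a • (1, 0) + b • (0, 1) := by
      ext <;> simp
    rw [this, map_add, map_smul, map_smul, smul_eq_mul, smul_eq_mul]
  ext q
  rw [Submodule.mem_orthogonal_singleton_iff_inner_right]
  have hin : inner ℝ (nv ℓ) q = q 2 - ℓ (q 0, q 1) := by
    rw [hℓ]
    simp [nv, PiLp.inner_apply, Fin.sum_univ_three]
    ring
  rw [hin]
  constructor
  · intro h
    refine ⟨(q 0, q 1), ?_⟩
    rw [graphMap_apply]
    ext i
    fin_cases i
    · simp
    · simp
    · simp only [Fin.reduceFinMk, Matrix.cons_val]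
      linarith
  · rintro ⟨v, rfl⟩
    simp [graphMap_apply]

/-- the unit normal -/
noncomputable def unv (ℓ : ℝ × ℝ →L[ℝ] ℝ) : EuclideanSpace ℝ (Fin 3) := (‖nv ℓ‖)⁻¹ • nv ℓ

lemma norm_unv (ℓ : ℝ × ℝ →L[ℝ] ℝ) : ‖unv ℓ‖ = 1 := by
  rw [unv, norm_smul, norm_inv, norm_norm, inv_mul_cancel₀ (norm_ne_zero_iff.mpr (nv_ne ℓ))]

lemma perp_unv (ℓ : ℝ × ℝ →L[ℝ] ℝ) : (ℝ ∙ unv ℓ)ᗮ = LinearMap.range (graphMap ℓ) := by
  rw [← perp_nv, unv, Submodule.span_singleton_smul_eq]
  exact IsUnit.mk0 _ (inv_ne_zero (norm_ne_zero_iff.mpr (nv_ne ℓ)))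

lemma continuous_unv : Continuous unv := by
  have h1 : Continuous nv := by
    unfold nv
    fun_prop
  exact (h1.norm.inv₀ fun ℓ => norm_ne_zero_iff.mpr (nv_ne ℓ)).smul h1

/-- the slope is continuous on the surface -/
lemma slope_cont (S : Set (EuclideanSpace ℝ (Fin 3))) (h : ℝ × ℝ → ℝ)
    (hc : Continuous (fderiv ℝ h)) (hnn : ∀ v, 0 ≤ h v)
    (hS : ∀ q ∈ S, |q 2| = h (q 0, q 1)) : ContinuousOn (slope h) S := by
  intro p hp
  have hcp : Continuous fun q : EuclideanSpace ℝ (Fin 3) => fderiv ℝ h (q 0, q 1) :=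
    hc.comp (by fun_prop)
  have h2 : Continuous fun q : EuclideanSpace ℝ (Fin 3) => q 2 := by fun_prop
  rcases lt_trichotomy (p 2) 0 with hp2 | hp2 | hp2
  · apply ContinuousAt.continuousWithinAt
    have hev : (fun q => -fderiv ℝ h (q 0, q 1)) =ᶠ[𝓝 p] slope h := by
      filter_upwards [h2.continuousAt.eventually (Iio_mem_nhds hp2)] with q hq
      rw [slope, Real.sign_of_neg hq]
      ext <;> simp
    exact (hcp.neg.continuousAt).congr hev
  · have hder : fderiv ℝ h (p 0, p 1) = 0 := by
      have hmin : IsLocalMin h (p 0, p 1) := by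
        apply Filter.Eventually.of_forall
        intro v
        rw [← hS p hp, hp2, abs_zero]
        exact hnn v
      exact hmin.fderiv_eq_zero
    have hsl : slope h p = 0 := by
      rw [slope, hp2, Real.sign_zero, zero_smul]
    apply ContinuousAt.continuousWithinAt
    rw [ContinuousAt, hsl, tendsto_zero_iff_norm_tendsto_zero]
    have h3 : Tendsto (fun q : EuclideanSpace ℝ (Fin 3) => ‖fderiv ℝ h (q 0, q 1)‖) (𝓝 p) (𝓝 0) := by
      have := hcp.norm.tendsto p
      rwa [hder, norm_zero] at this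
    refine squeeze_zero (fun q => norm_nonneg _) (fun q => ?_) h3
    rw [slope, norm_smul]
    have h4 : ‖Real.sign (q 2)‖ ≤ 1 := by
      rcases Real.sign_apply_eq (q 2) with h | h | h <;> rw [h] <;> simp
    calc ‖Real.sign (q 2)‖ * ‖fderiv ℝ h (q 0, q 1)‖ ≤ 1 * ‖fderiv ℝ h (q 0, q 1)‖ := by gcongr
      _ = _ := one_mul _
  · apply ContinuousAt.continuousWithinAt
    have hev : (fun q => fderiv ℝ h (q 0, q 1)) =ᶠ[𝓝 p] slope h := by
      filter_upwards [h2.continuousAt.eventually (Ioi_mem_nhds hp2)] with q hq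
      rw [slope, Real.sign_of_pos hq, one_smul]
    exact hcp.continuousAt.congr hev

/-- **A surface with a continuous unit normal and one set of positive area on which every continuous
map from a planar open set into the surface is irregular almost everywhere.** -/
theorem result : ∃ (S : Set (EuclideanSpace ℝ (Fin 3))) (f g h : ℝ × ℝ → ℝ)
    (n : EuclideanSpace ℝ (Fin 3) → EuclideanSpace ℝ (Fin 3)) (E : Set (EuclideanSpace ℝ (Fin 3))),
    IsRepresentation univ f g h S ∧ Topology.IsClosedEmbedding (param f g h) ∧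
    ContinuousOn n S ∧ (∀ p ∈ S, ‖n p‖ = 1 ∧ IsTangentPlane S p (ℝ ∙ n p)ᗮ) ∧
    E ⊆ S ∧ IsCompact E ∧ 0 < μH[2] E ∧
    (∀ (D₁ : Set (ℝ × ℝ)) (f₁ g₁ h₁ : ℝ × ℝ → ℝ), IsOpen D₁ →
      ContinuousOn f₁ D₁ → ContinuousOn g₁ D₁ → ContinuousOn h₁ D₁ →
      (∀ w ∈ D₁, param f₁ g₁ h₁ w ∈ S) →
      μH[2] (E ∩ param f₁ g₁ h₁ '' {w | w ∈ D₁ ∧ RegularAt f₁ g₁ h₁ w}) = 0) ∧
    ∀ (D₁ : Set (ℝ × ℝ)) (f₁ g₁ h₁ : ℝ × ℝ → ℝ), IsRepresentation D₁ f₁ g₁ h₁ S →
      ∀ N ⊆ D₁, (∀ w ∈ D₁ \ N, RegularAt f₁ g₁ h₁ w) →
        μH[2] E ≤ μH[2] (param f₁ g₁ h₁ '' N) := by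
  classical
  obtain ⟨φ, hφc, hφ⟩ := exists_phi
  obtain ⟨cf, hcf⟩ := exists_homeo code code_continuous code_injective
  -- the defining function of the region
  set T : ℝ × ℝ → ℝ := fun v => cf.symm v.2 - φ (cf.symm v.1 + 2 * cf.symm v.2) with hT
  have hTc : Continuous T := by
    have h1 : Continuous cf.symm := cf.symm.continuous
    exact (h1.comp continuous_snd).sub (hφc.comp ((h1.comp continuous_fst).add
      (continuous_const.mul (h1.comp continuous_snd))))
  have hopen : IsOpen {v | 0 < T v} := isOpen_lt continuous_const hTc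
  obtain ⟨h, hsupp, hsmooth, hrange⟩ := hopen.exists_contDiff_support_eq (n := ⊤)
  have hnn : ∀ v, 0 ≤ h v := fun v => (hrange (mem_range_self v)).1
  have hh : Differentiable ℝ h := hsmooth.differentiable (by simp)
  have hpos : ∀ v, 0 < T v → 0 < h v := by
    intro v hv
    have : v ∈ Function.support h := by rw [hsupp]; exact hv
    exact lt_of_le_of_ne (hnn v) (Ne.symm this)
  have hzero : ∀ v, T v = 0 → h v = 0 := by
    intro v hv
    by_contra hne
    have : v ∈ Function.support h := hne
    rw [hsupp] at this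
    exact absurd hv (ne_of_gt this)
  -- parametrization
  set X : ℝ × ℝ → ℝ := fun w => cf (w.1 - 2 * (|w.2| + φ w.1)) with hX
  set Y : ℝ × ℝ → ℝ := fun w => cf (|w.2| + φ w.1) with hY
  have hXc : Continuous X := by
    have h1 : Continuous cf := cf.continuous
    exact h1.comp (continuous_fst.sub (continuous_const.mul
      ((continuous_abs.comp continuous_snd).add (hφc.comp continuous_fst))))
  have hYc : Continuous Y := by
    have h1 : Continuous cf := cf.continuous
    exact h1.comp ((continuous_abs.comp continuous_snd).add (hφc.comp continuous_fst))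
  have hTXY : ∀ w, T (X w, Y w) = |w.2| := by
    intro w
    simp only [hT, hX, hY, Homeomorph.symm_apply_apply]
    have : w.1 - 2 * (|w.2| + φ w.1) + 2 * (|w.2| + φ w.1) = w.1 := by ring
    rw [this]; ring
  have hsXY : ∀ w, cf.symm (X w) + 2 * cf.symm (Y w) = w.1 := by
    intro w
    simp only [hX, hY, Homeomorph.symm_apply_apply]
    ring
  set Z : ℝ × ℝ → ℝ := fun w => if 0 ≤ w.2 then h (X w, Y w) else - h (X w, Y w) with hZ
  have hZc : Continuous Z := by
    have h1 : Continuous fun w => h (X w, Y w) := hh.continuous.comp (hXc.prodMk hYc)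
    refine Continuous.if_le h1 h1.neg continuous_const continuous_snd ?_
    intro w hw
    have : h (X w, Y w) = 0 := by
      apply hzero
      rw [hTXY, ← hw, abs_zero]
    rw [this, neg_zero]
  have hZabs : ∀ w, |Z w| = h (X w, Y w) := by
    intro w
    simp only [hZ]
    split_ifs
    · exact abs_of_nonneg (hnn _)
    · rw [abs_neg]; exact abs_of_nonneg (hnn _)
  set S : Set (EuclideanSpace ℝ (Fin 3)) := param X Y Z '' univ with hSdef
  have hp0 : ∀ f g h w, param f g h w 0 = f w := fun f g h w => by simp [param]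
  have hp1 : ∀ f g h w, param f g h w 1 = g w := fun f g h w => by simp [param]
  have hp2 : ∀ f g h w, param f g h w 2 = h w := fun f g h w => by simp [param]
  have hS1 : ∀ q ∈ S, |q 2| = h (q 0, q 1) := by
    rintro q ⟨w, -, rfl⟩
    rw [hp0, hp1, hp2]; exact hZabs w
  have hS2 : ∀ q ∈ S, 0 ≤ T (q 0, q 1) := by
    rintro q ⟨w, -, rfl⟩
    rw [hp0, hp1, hTXY]; exact abs_nonneg _
  -- the fat product
  set K : Set (ℝ × ℝ) := (cf '' range code) ×ˢ (cf '' range code) with hK
  have hKpos : 0 < volume K := by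
    rw [hK, Measure.volume_eq_prod, Measure.prod_prod]
    exact ENNReal.mul_pos hcf.ne' hcf.ne'
  have hKc : IsCompact K := by
    have h1 : IsCompact (cf '' range code) := (isCompact_range code_continuous).image cf.continuous
    exact h1.prod h1
  have hproj : LipschitzWith 1 (fun q : EuclideanSpace ℝ (Fin 3) => ((q 0, q 1) : ℝ × ℝ)) := by
    apply LipschitzWith.of_dist_le_mul
    intro q q'
    rw [NNReal.coe_one, one_mul, dist_eq_norm, dist_eq_norm]
    exact norm_le_euclid (q - q')
  set ι : ℝ × ℝ →L[ℝ] EuclideanSpace ℝ (Fin 3) := LinearMap.toContinuousLinearMap (graphMap 0)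
    with hι
  have hιv : ∀ v : ℝ × ℝ, ι v = !₂[v.1, v.2, 0] := fun v => rfl
  -- the points of the fat product
  have hKpt : ∀ v ∈ K, T v = 0 ∧ ι v ∈ S ∧ v ∈ closure {v | 0 ≤ T v}ᶜ := by
    rintro ⟨x, y⟩ ⟨⟨_, ⟨a, rfl⟩, hx⟩, ⟨_, ⟨b, rfl⟩, hy⟩⟩
    simp only at hx hy
    subst hx hy
    have hXY : X (code a + 2 * code b, 0) = cf (code a) ∧ Y (code a + 2 * code b, 0) = cf (code b) := by
      simp only [hX, hY, abs_zero, zero_add, hφ]
      constructor
      · congr 1; ring
      · trivial
    have hTK : T (cf (code a), cf (code b)) = 0 := by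
      rw [← hXY.1, ← hXY.2, hTXY, abs_zero]
    refine ⟨hTK, ?_, ?_⟩
    · refine ⟨(code a + 2 * code b, 0), mem_univ _, ?_⟩
      have hZ0 : Z (code a + 2 * code b, 0) = 0 := by
        have := hZabs (code a + 2 * code b, 0)
        rw [hXY.1, hXY.2, hzero _ hTK] at this
        exact abs_eq_zero.mp this
      rw [hιv, param, hXY.1, hXY.2, hZ0]
    · have hcurve : Continuous fun t : ℝ =>
          ((cf (code a + 2 * code b - 2 * (t + φ (code a + 2 * code b))),
            cf (t + φ (code a + 2 * code b))) : ℝ × ℝ) := by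
        have h1 : Continuous cf := cf.continuous
        fun_prop
      have hval : (fun t : ℝ =>
          ((cf (code a + 2 * code b - 2 * (t + φ (code a + 2 * code b))),
            cf (t + φ (code a + 2 * code b))) : ℝ × ℝ)) 0 = (cf (code a), cf (code b)) := by
        simp only [zero_add, hφ]
        congr 2
        ring
      rw [← hval]
      refine mem_closure_of_tendsto (hcurve.continuousWithinAt (s := Iio 0)) ?_
      filter_upwards [self_mem_nhdsWithin] with t ht
      simp only [hT, mem_compl_iff, mem_ofPred_eq, not_le, Homeomorph.symm_apply_apply]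
      have : code a + 2 * code b - 2 * (t + φ (code a + 2 * code b)) +
          2 * (t + φ (code a + 2 * code b)) = code a + 2 * code b := by ring
      rw [this]
      have : t < 0 := ht
      linarith
  have hEpos : 0 < μH[2] (ι '' K) := by
    have himg : (fun q : EuclideanSpace ℝ (Fin 3) => ((q 0, q 1) : ℝ × ℝ)) '' (ι '' K) = K := by
      rw [image_image]
      simp only [hιv]
      simp
    have h2 := hproj.hausdorffMeasure_image_le (d := 2) (by norm_num) (ι '' K)
    rw [himg, hausdorffMeasure_prod_real] at h2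
    simp only [ENNReal.coe_one, ENNReal.one_rpow, one_mul] at h2
    exact lt_of_lt_of_le hKpos h2
  have main : ∀ (D₁ : Set (ℝ × ℝ)) (f₁ g₁ h₁ : ℝ × ℝ → ℝ), IsOpen D₁ →
      ContinuousOn f₁ D₁ → ContinuousOn g₁ D₁ → ContinuousOn h₁ D₁ →
      (∀ w ∈ D₁, param f₁ g₁ h₁ w ∈ S) →
      μH[2] (ι '' K ∩ param f₁ g₁ h₁ '' {w | w ∈ D₁ ∧ RegularAt f₁ g₁ h₁ w}) = 0 := by
    intro D₁ f₁ g₁ h₁ hopenD hfc hgc _ hmemS
    set F : ℝ × ℝ → ℝ × ℝ := fun w => (f₁ w, g₁ w) with hF
    set Ω : Set (ℝ × ℝ) := {v | 0 ≤ T v} with hΩ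
    have hFΩ : ∀ w ∈ D₁, F w ∈ Ω := by
      intro w hw
      have := hS2 _ (hmemS w hw)
      rwa [hp0, hp1] at this
    have hFc : ContinuousOn F D₁ := hfc.prodMk hgc
    have habs : ∀ w ∈ D₁, |h₁ w| = h (F w) := by
      intro w hw
      have := hS1 _ (hmemS w hw)
      rwa [hp0, hp1, hp2] at this
    have hnull := null_main F D₁ hopenD hFc Ω hFΩ
    set G : Set (ℝ × ℝ) := {w | w ∈ D₁ ∧ F w ∈ closure Ωᶜ ∧ ∃ a b : ℝ × ℝ,
      HasDerivAt (fun t => F (t, w.2)) a w.1 ∧ HasDerivAt (fun t => F (w.1, t)) b w.2 ∧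
      a.1 * b.2 - a.2 * b.1 ≠ 0} with hG
    have hsub : ι '' K ∩ param f₁ g₁ h₁ '' {w | w ∈ D₁ ∧ RegularAt f₁ g₁ h₁ w} ⊆
        ι '' (F '' G) := by
      rintro p ⟨⟨v, hv, rfl⟩, ⟨w, ⟨hwD, hreg⟩, hw⟩⟩
      obtain ⟨hTv, -, hcl⟩ := hKpt v hv
      have e0 := congrArg (fun q : EuclideanSpace ℝ (Fin 3) => q 0) hw
      have e1 := congrArg (fun q : EuclideanSpace ℝ (Fin 3) => q 1) hw
      have hι0 : (ι v) 0 = v.1 := by rw [hιv]; rfl
      have hι1 : (ι v) 1 = v.2 := by rw [hιv]; rfl
      simp only [hp0, hp1, hι0, hι1] at e0 e1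
      have hFw : F w = v := Prod.ext e0 e1
      refine ⟨F w, ⟨w, ⟨hwD, ?_, ?_⟩, rfl⟩, by rw [hFw]⟩
      · rw [hFw]
        exact hcl
      · obtain ⟨fu, fv, gu, gv, hu, hv, d1, d2, d3, d4, d5, d6, hjac⟩ := hreg
        have hcu : HasDerivAt (fun t => F (t, w.2)) (fu, gu) w.1 := d1.prodMk d3
        have hcv : HasDerivAt (fun t => F (w.1, t)) (fv, gv) w.2 := d2.prodMk d4
        refine ⟨(fu, gu), (fv, gv), hcu, hcv, ?_⟩
        have hnhds1 : ∀ᶠ t in 𝓝 w.1, ((t, w.2) : ℝ × ℝ) ∈ D₁ :=
          (by fun_prop : Continuous fun t : ℝ => ((t, w.2) : ℝ × ℝ)).continuousAt.eventually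
            (hopenD.mem_nhds hwD)
        have hnhds2 : ∀ᶠ t in 𝓝 w.2, ((w.1, t) : ℝ × ℝ) ∈ D₁ :=
          (by fun_prop : Continuous fun t : ℝ => ((w.1, t) : ℝ × ℝ)).continuousAt.eventually
            (hopenD.mem_nhds hwD)
        have hhw : h (F w) = 0 := by rw [hFw]; exact hzero _ hTv
        have hu0 : hu = 0 := deriv_zero_of_fold h hh hnn (fun t => F (t, w.2)) w.1 (fu, gu) hcu
          hhw (fun t => h₁ (t, w.2)) hu d5 (hnhds1.mono fun t ht => habs _ ht)
        have hv0 : hv = 0 := deriv_zero_of_fold h hh hnn (fun t => F (w.1, t)) w.2 (fv, gv) hcv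
          hhw (fun t => h₁ (w.1, t)) hv d6 (hnhds2.mono fun t ht => habs _ ht)
        intro hdet
        apply hjac
        rw [hu0, hv0]
        refine ⟨by ring, by ring, ?_⟩
        simp only at hdet
        linarith
    refine measure_mono_null hsub ?_
    have h3 := ι.lipschitz.hausdorffMeasure_image_le (d := 2) (by norm_num) (F '' G)
    rw [hausdorffMeasure_prod_real, hnull, mul_zero] at h3
    exact le_antisymm h3 bot_le
  have hinj : InjOn (param X Y Z) univ := by
    intro w _ w' _ hww
    have e0 := congrArg (fun q : EuclideanSpace ℝ (Fin 3) => q 0) hww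
    have e1 := congrArg (fun q : EuclideanSpace ℝ (Fin 3) => q 1) hww
    have e2 := congrArg (fun q : EuclideanSpace ℝ (Fin 3) => q 2) hww
    simp only [hp0, hp1, hp2] at e0 e1 e2
    have hfst : w.1 = w'.1 := by rw [← hsXY w, ← hsXY w', e0, e1]
    have habs : |w.2| = |w'.2| := by rw [← hTXY w, ← hTXY w', e0, e1]
    refine Prod.ext hfst ?_
    rcases abs_eq_abs.mp habs with h1 | h1
    · exact h1
    · by_cases hw0 : w.2 = 0
      · rw [hw0] at h1 ⊢; linarith
      · exfalso
        have hposh : 0 < h (X w, Y w) := by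
          apply hpos; rw [hTXY]; exact abs_pos.mpr hw0
        have hXY' : h (X w', Y w') = h (X w, Y w) := by rw [e0, e1]
        simp only [hZ] at e2
        rcases lt_or_gt_of_ne hw0 with h2 | h2
        · rw [if_neg (not_le.mpr h2), if_pos (by linarith), hXY'] at e2
          linarith
        · rw [if_pos h2.le, if_neg (not_le.mpr (by linarith)), hXY'] at e2
          linarith
  have hclosed : Topology.IsClosedEmbedding (param X Y Z) := by
    have hc : Continuous (param X Y Z) := by
      unfold param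
      fun_prop
    have hprop : IsProperMap (param X Y Z) := by
      rw [isProperMap_iff_isCompact_preimage]
      refine ⟨hc, fun C hC => ?_⟩
      have hA : Continuous fun q : EuclideanSpace ℝ (Fin 3) =>
          ((cf.symm (q 0) + 2 * cf.symm (q 1), T (q 0, q 1)) : ℝ × ℝ) := by
        have h1 : Continuous cf.symm := cf.symm.continuous
        have h2 : Continuous fun q : EuclideanSpace ℝ (Fin 3) => q 0 := by fun_prop
        have h3 : Continuous fun q : EuclideanSpace ℝ (Fin 3) => q 1 := by fun_prop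
        exact ((h1.comp h2).add (continuous_const.mul (h1.comp h3))).prodMk
          (hTc.comp (h2.prodMk h3))
      obtain ⟨R, hR⟩ := (hC.image hA).isBounded.subset_closedBall (0 : ℝ × ℝ)
      refine (isCompact_closedBall (0 : ℝ × ℝ) R).of_isClosed_subset (hC.isClosed.preimage hc) ?_
      intro w hw
      have h1 := hR (mem_image_of_mem _ hw)
      simp only [hp0, hp1, hsXY, hTXY] at h1
      rw [mem_closedBall_zero_iff, Prod.norm_def] at h1 ⊢
      simpa using h1
    exact Topology.IsClosedEmbedding.of_continuous_injective_isClosedMap hc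
      (injOn_univ.mp hinj) hprop.isClosedMap
  refine ⟨S, X, Y, Z, fun p => unv (slope h p), ι '' K, ?_, hclosed, ?_, ?_, ?_, ?_, hEpos, main, ?_⟩
  · exact ⟨isOpen_univ, isConnected_univ, hXc.continuousOn, hYc.continuousOn,
      hZc.continuousOn, hinj, rfl⟩
  · have hfd : Continuous (fderiv ℝ h) := hsmooth.continuous_fderiv (by simp)
    exact continuous_unv.comp_continuousOn (slope_cont S h hfd hnn hS1)
  · intro p hp
    refine ⟨norm_unv _, ?_⟩
    rw [perp_unv]
    exact tangent_double S h hh hnn hS1 p hp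
  · rintro _ ⟨v, hv, rfl⟩
    exact (hKpt v hv).2.1
  · exact hKc.image ι.continuous
  · intro D₁ f₁ g₁ h₁ hrep N hN hreg
    have hmemS : ∀ w ∈ D₁, param f₁ g₁ h₁ w ∈ S := by
      intro w hw; rw [← hrep.image_eq]; exact mem_image_of_mem _ hw
    have h0 := main D₁ f₁ g₁ h₁ hrep.isOpen hrep.continuousOn_f hrep.continuousOn_g
      hrep.continuousOn_h hmemS
    have hsub : ι '' K ⊆ (ι '' K ∩ param f₁ g₁ h₁ '' {w | w ∈ D₁ ∧ RegularAt f₁ g₁ h₁ w}) ∪
        param f₁ g₁ h₁ '' N := by
      intro p hp
      have hpS : p ∈ S := by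
        obtain ⟨v, hv, rfl⟩ := hp
        exact (hKpt v hv).2.1
      rw [← hrep.image_eq] at hpS
      obtain ⟨w, hwD, rfl⟩ := hpS
      by_cases hwN : w ∈ N
      · exact Or.inr ⟨w, hwN, rfl⟩
      · exact Or.inl ⟨hp, ⟨w, ⟨hwD, hreg w ⟨hwD, hwN⟩⟩, rfl⟩⟩
    calc μH[2] (ι '' K) ≤ μH[2] ((ι '' K ∩ param f₁ g₁ h₁ '' {w | w ∈ D₁ ∧ RegularAt f₁ g₁ h₁ w}) ∪
          param f₁ g₁ h₁ '' N) := measure_mono hsub
      _ ≤ _ := measure_union_le _ _
      _ = μH[2] (param f₁ g₁ h₁ '' N) := by rw [h0, zero_add]

end Pool.Agent.Results.MP_4d0de2_an.IrregularSet
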